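import Pool.Agent.H19.OM.Stm

/-!
# Project OM: the scalar products of the densities (module GRA)
-/

set_option autoImplicit false

namespace Pool.Agent.H95.OM

open Finset MeasureTheory ProbabilityTheory
open Pool.Agent.H19.OM
open scoped NNReal

/-- the falling factorial as a real number -/
noncomputable def DD (n m : ℕ) : ℝ := (n.descFactorial m : ℝ)

theorem DD_succ (n m : ℕ) : DD n (m + 1) = ((n : ℝ) - m) * DD n m := by
  unfold DD
  rw [Nat.descFactorial_succ]
  rcases le_or_gt m n with h | h
  · push_cast [Nat.cast_sub h]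
    ring
  · rw [Nat.descFactorial_of_lt h]
    simp

theorem DD_nonneg (n m : ℕ) : 0 ≤ DD n m := Nat.cast_nonneg _

/-- products of falling factorials -/
theorem DD_mul (n u v : ℕ) : DD n u * DD n v =
    ∑ j ∈ range (u + 1), (u.choose j : ℝ) * (v.choose j) * j.factorial * DD n (u + v - j) := by
  induction v with
  | zero =>
    rw [Finset.sum_eq_single 0]
    · simp [DD]
    · intro j _ hj
      rw [Nat.choose_eq_zero_of_lt (by omega : 0 < j)]
      simp
    · intro h
      exact absurd (mem_range.2 (by omega)) h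
  | succ v ih =>
    have h1 : DD n u * DD n (v + 1) = ((n : ℝ) - v) * (DD n u * DD n v) := by
      rw [DD_succ]
      ring
    rw [h1, ih, Finset.mul_sum]
    have h2 : ∀ j ∈ range (u + 1), ((n : ℝ) - v) * ((u.choose j : ℝ) * (v.choose j) * j.factorial * DD n (u + v - j)) =
        (u.choose j : ℝ) * (v.choose j) * j.factorial * DD n (u + (v + 1) - j) +
        ((u : ℝ) - j) * ((u.choose j : ℝ) * (v.choose j) * j.factorial * DD n (u + v - j)) := by
      intro j hj
      have hj' : j ≤ u := by have := mem_range.1 hj; omega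
      have e1 : u + (v + 1) - j = (u + v - j) + 1 := by omega
      have e2 : ((u + v - j : ℕ) : ℝ) = u + v - j := by
        rw [Nat.cast_sub (by omega)]
        push_cast
        ring
      rw [e1, DD_succ, e2]
      ring
    rw [Finset.sum_congr rfl h2, Finset.sum_add_distrib]
    have h3 : ∑ j ∈ range (u + 1), ((u : ℝ) - j) * ((u.choose j : ℝ) * (v.choose j) * j.factorial * DD n (u + v - j)) =
        ∑ j ∈ range u, (u.choose (j + 1) : ℝ) * (v.choose j) * (j + 1).factorial * DD n (u + v - j) := by
      rw [Finset.sum_range_succ, sub_self, zero_mul, add_zero]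
      refine Finset.sum_congr rfl fun j hj => ?_
      have hj' : j < u := mem_range.1 hj
      have e3 : (u.choose (j + 1) : ℝ) * (j + 1) = u.choose j * ((u : ℝ) - j) := by
        have := Nat.choose_succ_right_eq u j
        have h4 : ((u.choose (j + 1) * (j + 1) : ℕ) : ℝ) = ((u.choose j * (u - j) : ℕ) : ℝ) := by rw [this]
        push_cast [Nat.cast_sub hj'.le] at h4
        exact h4
      rw [Nat.factorial_succ]
      push_cast
      linear_combination (-(v.choose j : ℝ) * j.factorial * DD n (u + v - j)) * e3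
    rw [h3, Finset.sum_range_succ' (fun j => (u.choose j : ℝ) * (v.choose j) * j.factorial * DD n (u + (v + 1) - j)),
      Finset.sum_range_succ' (fun j => (u.choose j : ℝ) * ((v + 1).choose j) * j.factorial * DD n (u + (v + 1) - j))]
    have h5 : ∀ j ∈ range u, (u.choose (j + 1) : ℝ) * ((v + 1).choose (j + 1)) * (j + 1).factorial *
        DD n (u + (v + 1) - (j + 1)) = (u.choose (j + 1) : ℝ) * (v.choose (j + 1)) * (j + 1).factorial *
        DD n (u + (v + 1) - (j + 1)) + (u.choose (j + 1) : ℝ) * (v.choose j) * (j + 1).factorial * DD n (u + v - j) := by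
      intro j _
      have e4 : u + (v + 1) - (j + 1) = u + v - j := by omega
      rw [Nat.choose_succ_succ, e4]
      push_cast
      ring
    rw [Finset.sum_congr rfl h5, Finset.sum_add_distrib]
    simp
    ring

/-- the factorial moments -/
theorem hasSum_DD (a : ℝ≥0) (m : ℕ) :
    HasSum (fun n : ℕ => Real.exp (-a) * (a : ℝ) ^ n / n.factorial * DD n m) ((a : ℝ) ^ m) := by
  have h1 := (hasSum_one_poissonMeasure a).mul_right ((a : ℝ) ^ m)
  rw [one_mul] at h1
  have h2 : (fun n : ℕ => Real.exp (-a) * (a : ℝ) ^ (n + m) / (n + m).factorial * DD (n + m) m) =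
      fun n : ℕ => Real.exp (-a) * (a : ℝ) ^ n / n.factorial * (a : ℝ) ^ m := by
    funext n
    have e1 : (n.factorial : ℝ) * DD (n + m) m = (n + m).factorial := by
      unfold DD
      have := Nat.factorial_mul_descFactorial (show m ≤ n + m by omega)
      rw [Nat.add_sub_cancel] at this
      exact_mod_cast this
    have hf1 : (n.factorial : ℝ) ≠ 0 := by exact_mod_cast n.factorial_ne_zero
    have hf2 : ((n + m).factorial : ℝ) ≠ 0 := by exact_mod_cast (n + m).factorial_ne_zero
    rw [pow_add]
    field_simp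
    linear_combination ((a : ℝ) ^ n * (a : ℝ) ^ m) * e1
  rw [← h2] at h1
  have h3 := (hasSum_nat_add_iff (f := fun n : ℕ => Real.exp (-a) * (a : ℝ) ^ n / n.factorial * DD n m) m).1 h1
  have h4 : ∑ i ∈ range m, Real.exp (-a) * (a : ℝ) ^ i / i.factorial * DD i m = 0 := by
    refine Finset.sum_eq_zero fun i hi => ?_
    unfold DD
    rw [Nat.descFactorial_of_lt (mem_range.1 hi)]
    simp
  rw [h4, add_zero] at h3
  exact h3

theorem int_DD (a : ℝ≥0) (m : ℕ) : Integrable (fun n : ℕ => DD n m) (poissonMeasure a) := by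
  rw [integrable_poissonMeasure_iff]
  refine (hasSum_DD a m).summable.congr fun n => ?_
  rw [Real.norm_of_nonneg (DD_nonneg n m)]

theorem integral_DD (a : ℝ≥0) (m : ℕ) : ∫ n : ℕ, DD n m ∂(poissonMeasure a) = (a : ℝ) ^ m := by
  rw [integral_poissonMeasure]
  simp only [smul_eq_mul]
  exact (hasSum_DD a m).tsum_eq

/-- one coordinate -/
theorem one (a : ℝ≥0) (ha : 0 < a) (u v : ℕ) :
    Integrable (fun n : ℕ => (n.descFactorial u : ℝ) / (a : ℝ) ^ u * ((n.descFactorial v : ℝ) / (a : ℝ) ^ v))
      (poissonMeasure a) ∧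
    ∫ n : ℕ, (n.descFactorial u : ℝ) / (a : ℝ) ^ u * ((n.descFactorial v : ℝ) / (a : ℝ) ^ v) ∂(poissonMeasure a) =
      cc a u v := by
  have ha' : (0 : ℝ) < a := ha
  have e : (fun n : ℕ => (n.descFactorial u : ℝ) / (a : ℝ) ^ u * ((n.descFactorial v : ℝ) / (a : ℝ) ^ v)) =
      fun n : ℕ => ∑ j ∈ range (u + 1), ((u.choose j : ℝ) * (v.choose j) * j.factorial / ((a : ℝ) ^ u * (a : ℝ) ^ v)) *
        DD n (u + v - j) := by
    funext n
    have h := DD_mul n u v
    unfold DD at h ⊢
    rw [div_mul_div_comm, h, Finset.sum_div]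
    refine Finset.sum_congr rfl fun j _ => ?_
    ring
  rw [e]
  constructor
  · exact integrable_finsetSum _ fun j _ => (int_DD a _).const_mul _
  · rw [integral_finsetSum _ fun j _ => (int_DD a _).const_mul _]
    unfold cc
    refine Finset.sum_congr rfl fun j hj => ?_
    have hj' : j ≤ u := by have := mem_range.1 hj; omega
    rw [integral_const_mul, integral_DD]
    have e2 : (a : ℝ) ^ u * (a : ℝ) ^ v = (a : ℝ) ^ (u + v - j) * (a : ℝ) ^ j := by
      rw [← pow_add, ← pow_add]
      congr 1
      omega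
    rw [e2]
    field_simp

theorem t_GRA : S_GRA := by
  intro a ha k u v
  have e : (fun w : Fin k → ℕ => gg a u w * gg a v w) = fun w : Fin k → ℕ => ∏ i,
      (fun (i : Fin k) (n : ℕ) => (n.descFactorial (u i) : ℝ) / (a : ℝ) ^ (u i) *
        ((n.descFactorial (v i) : ℝ) / (a : ℝ) ^ (v i))) i (w i) := by
    funext w
    unfold gg
    rw [← Finset.prod_mul_distrib]
  constructor
  · rw [e]
    exact Integrable.fintype_prod fun i => (one a ha (u i) (v i)).1
  · unfold Pool.Agent.H19.OM.P
    rw [e]
    refine (integral_fintype_prod_eq_prod (𝕜 := ℝ) (E := fun _ : Fin k => ℕ) (μ := fun _ : Fin k => poissonMeasure a)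
      (fun (i : Fin k) (n : ℕ) => (n.descFactorial (u i) : ℝ) / (a : ℝ) ^ (u i) *
        ((n.descFactorial (v i) : ℝ) / (a : ℝ) ^ (v i)))).trans ?_
    exact Finset.prod_congr rfl fun i _ => (one a ha (u i) (v i)).2

end Pool.Agent.H95.OM
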